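import Mathlib

open Complex Filter Metric Real Set Topology MeasureTheory

/-!
Proof outline.  Locally replace `f` by a continuous compactly supported `F`.  The potential
`pot F` (convolution of `F` with the conjugate Cauchy kernel) is continuous, and the difference
between its mean over the circle of radius `r` about `z` and its value at `z` equals the integral
over `0 < s < r` of the weighted circle means `wm F z s`, which are the contour integrals of `F`
divided by `i s`.  Hence the hypothesis says that the potential has vanishing Blaschke Laplacian at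
every point.  By the maximum principle (Blaschke, Privalov), proved here with trigonometric
polynomials as boundary data, it has the mean value property, so all small weighted circle means of
`F` vanish, and mollification shows that `F` is holomorphic.
-/

namespace Pool.Agent.Results.MP_be4214_an.ArealCircleDerivative

/-- Data of an entire harmonic extension. -/
lemma exists_harmonic_ext (c : ℂ) (R : ℝ) (hR : 0 < R) (p : C(AddCircle (2 * π), ℂ))
    [Fact (0 < 2 * π)]
    (hp : p ∈ Submodule.span ℂ (Set.range (@fourier (2 * π)))) :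
    ∃ h : ℂ → ℂ, Continuous h ∧ (∀ z r, circleAverage h z r = h z) ∧
      ∀ t : ℝ, h (circleMap c R t) = p (t : AddCircle (2 * π)) := by
  induction hp using Submodule.span_induction with
  | mem x hx =>
    obtain ⟨n, rfl⟩ := hx
    rcases Int.le_total 0 n with hn | hn
    · obtain ⟨m, rfl⟩ := Int.eq_ofNat_of_zero_le hn
      refine ⟨fun z => ((z - c) / R) ^ m, by fun_prop, ?_, ?_⟩
      · intro z r
        have hd : Differentiable ℂ (fun z : ℂ => ((z - c) / R) ^ m) := by fun_prop
        exact hd.diffContOnCl.circleAverage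
      · intro t
        have hR' : (R : ℂ) ≠ 0 := by exact_mod_cast hR.ne'
        simp only [circleMap, add_sub_cancel_left]
        rw [mul_div_cancel_left₀ _ hR', fourier_coe_apply, ← Complex.exp_nat_mul]
        congr 1
        push_cast
        have : (π : ℂ) ≠ 0 := by exact_mod_cast Real.pi_ne_zero
        field_simp
    · obtain ⟨m, hm⟩ := Int.eq_ofNat_of_zero_le (by omega : 0 ≤ -n)
      obtain rfl : n = -(m : ℤ) := by omega
      refine ⟨fun z => (starRingEnd ℂ) (((z - c) / R) ^ m), by fun_prop, ?_, ?_⟩
      · intro z r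
        have hd : Differentiable ℂ (fun z : ℂ => ((z - c) / R) ^ m) := by fun_prop
        have h1 := (hd.diffContOnCl (s := ball z |r|)).circleAverage
        have h2 := (Complex.conjCLE : ℂ →L[ℝ] ℂ).circleAverage_comp_comm (c := z) (R := r)
          (f := fun z : ℂ => ((z - c) / R) ^ m)
          (hd.continuous.continuousOn.circleIntegrable')
        rw [h1] at h2
        exact h2
      · intro t
        have hR' : (R : ℂ) ≠ 0 := by exact_mod_cast hR.ne'
        simp only [circleMap, add_sub_cancel_left]
        rw [mul_div_cancel_left₀ _ hR', fourier_coe_apply, ← Complex.exp_nat_mul,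
          ← Complex.exp_conj]
        congr 1
        simp only [map_mul, Complex.conj_I, Complex.conj_ofReal, map_natCast]
        push_cast
        have : (π : ℂ) ≠ 0 := by exact_mod_cast Real.pi_ne_zero
        field_simp
  | zero => exact ⟨fun _ => 0, continuous_const, fun z r => by simp [circleAverage_const], by simp⟩
  | add x y _ _ hx hy =>
    obtain ⟨h1, c1, a1, b1⟩ := hx
    obtain ⟨h2, c2, a2, b2⟩ := hy
    refine ⟨fun z => h1 z + h2 z, c1.add c2, fun z r => ?_, fun t => ?_⟩
    · rw [circleAverage_fun_add (c1.continuousOn.circleIntegrable')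
        (c2.continuousOn.circleIntegrable'), a1, a2]
    · simp [b1, b2]
  | smul a x _ hx =>
    obtain ⟨h1, c1, a1, b1⟩ := hx
    refine ⟨fun z => a • h1 z, c1.const_smul a, fun z r => ?_, fun t => ?_⟩
    · rw [circleAverage_fun_smul, a1]
    · simp [b1]

lemma circleAverage_normSq_sub (c z : ℂ) (r : ℝ) :
    circleAverage (fun w => ‖w - c‖ ^ 2) z r = ‖z - c‖ ^ 2 + r ^ 2 := by
  have h1 : ∀ θ : ℝ, ‖circleMap z r θ - c‖ ^ 2 =
      (‖z - c‖ ^ 2 + r ^ 2) + (2 * r * (z - c).re * Real.cos θ + 2 * r * (z - c).im * Real.sin θ) := by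
    intro θ
    rw [← Complex.normSq_eq_norm_sq, ← Complex.normSq_eq_norm_sq, Complex.normSq_apply,
      Complex.normSq_apply]
    simp only [circleMap, Complex.sub_re, Complex.sub_im, Complex.add_re, Complex.add_im,
      Complex.re_ofReal_mul, Complex.im_ofReal_mul, Complex.exp_ofReal_mul_I_re,
      Complex.exp_ofReal_mul_I_im]
    nlinarith [Real.sin_sq_add_cos_sq θ]
  have h2 : ∫ θ in (0 : ℝ)..2 * π, (2 * r * (z - c).re * Real.cos θ + 2 * r * (z - c).im * Real.sin θ)
      = 0 := by
    rw [intervalIntegral.integral_add (Continuous.intervalIntegrable (by fun_prop) _ _)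
      (Continuous.intervalIntegrable (by fun_prop) _ _), intervalIntegral.integral_const_mul,
      intervalIntegral.integral_const_mul, integral_cos, integral_sin]
    simp
  rw [circleAverage_def]
  simp_rw [h1]
  rw [intervalIntegral.integral_add (by simp) (Continuous.intervalIntegrable (by fun_prop) _ _), h2]
  simp only [intervalIntegral.integral_const, sub_zero, smul_eq_mul, add_zero]
  field_simp

/-- Maximum principle for functions with vanishing Blaschke Laplacian. -/
lemma max_principle (c : ℂ) (R : ℝ) (hR : 0 < R) (u : ℂ → ℝ)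
    (hu : ContinuousOn u (closedBall c R))
    (hB : ∀ z ∈ ball c R, Tendsto (fun r : ℝ => (circleAverage u z r - u z) / r ^ 2)
      (𝓝[>] 0) (𝓝 0))
    (hbd : ∀ z ∈ sphere c R, u z ≤ 0) : ∀ z ∈ closedBall c R, u z ≤ 0 := by
  intro z0 hz0
  refine le_of_forall_pos_le_add fun δ hδ => ?_
  -- perturbation
  set ε : ℝ := δ / R ^ 2 with hε
  have hεpos : 0 < ε := by positivity
  set v : ℂ → ℝ := fun z => u z + ε * (‖z - c‖ ^ 2 - R ^ 2) with hv
  have hvc : ContinuousOn v (closedBall c R) := by
    apply hu.add
    exact Continuous.continuousOn (by fun_prop)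
  obtain ⟨z2, hz2, hmax⟩ := (isCompact_closedBall c R).exists_isMaxOn ⟨z0, hz0⟩ hvc
  have hle : v z2 ≤ 0 := by
    by_contra hcon
    push Not at hcon
    have hz2' : z2 ∈ ball c R := by
      rcases (mem_closedBall.mp hz2).lt_or_eq with h | h
      · exact h
      · exfalso
        have h1 := hbd z2 (mem_sphere.mpr h)
        have h2 : ‖z2 - c‖ = R := by rw [← dist_eq_norm]; exact h
        simp only [hv, h2] at hcon
        linarith
    -- small circles inside
    obtain ⟨ρ, hρ, hball⟩ := Metric.isOpen_iff.mp isOpen_ball z2 hz2'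
    have hsmall : ∀ r : ℝ, 0 < r → r < ρ → closedBall z2 r ⊆ closedBall c R := by
      intro r hr hrρ
      exact (closedBall_subset_ball hrρ).trans (hball.trans ball_subset_closedBall)
    have key : ∀ r : ℝ, 0 < r → r < ρ → (circleAverage u z2 r - u z2) / r ^ 2 ≤ -ε := by
      intro r hr hrρ
      have hsub := hsmall r hr hrρ
      have hint_u : CircleIntegrable u z2 r := by
        apply ContinuousOn.circleIntegrable hr.le
        exact hu.mono (sphere_subset_closedBall.trans hsub)
      have hint_q : CircleIntegrable (fun z : ℂ => ε * (‖z - c‖ ^ 2 - R ^ 2)) z2 r := by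
        apply ContinuousOn.circleIntegrable hr.le
        exact Continuous.continuousOn (by fun_prop)
      have h1 : circleAverage v z2 r ≤ v z2 := by
        apply circleAverage_mono_on_of_le_circle
        · apply ContinuousOn.circleIntegrable hr.le
          exact hvc.mono (sphere_subset_closedBall.trans hsub)
        · intro x hx
          apply hmax
          apply hsub
          rw [abs_of_pos hr] at hx
          exact sphere_subset_closedBall hx
      have h2 : circleAverage v z2 r = circleAverage u z2 r +
          circleAverage (fun z : ℂ => ε * (‖z - c‖ ^ 2 - R ^ 2)) z2 r := by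
        exact circleAverage_fun_add hint_u hint_q
      have h3 : circleAverage (fun z : ℂ => ε * (‖z - c‖ ^ 2 - R ^ 2)) z2 r =
          ε * (‖z2 - c‖ ^ 2 + r ^ 2 - R ^ 2) := by
        have h4 : circleAverage (fun z : ℂ => ε * (‖z - c‖ ^ 2 - R ^ 2)) z2 r =
          ε • circleAverage (fun z : ℂ => (‖z - c‖ ^ 2 - R ^ 2)) z2 r := by
          rw [← circleAverage_fun_smul]; rfl
        rw [h4, circleAverage_fun_sub, circleAverage_normSq_sub, circleAverage_const]
        · rfl
        · apply ContinuousOn.circleIntegrable hr.le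
          exact Continuous.continuousOn (by fun_prop)
        · apply ContinuousOn.circleIntegrable hr.le
          exact Continuous.continuousOn (by fun_prop)
      rw [h2, h3] at h1
      simp only [hv] at h1
      rw [div_le_iff₀ (by positivity)]
      nlinarith
    have hlim := hB z2 hz2'
    have hev : ∀ᶠ r : ℝ in 𝓝[>] 0, (circleAverage u z2 r - u z2) / r ^ 2 ≤ -ε := by
      filter_upwards [Ioo_mem_nhdsGT hρ] with r hr
      exact key r hr.1 hr.2
    have := le_of_tendsto hlim hev
    linarith
  have h5 : v z0 ≤ 0 := (hmax hz0).trans hle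
  simp only [hv] at h5
  have h6 : 0 ≤ ‖z0 - c‖ ^ 2 := by positivity
  have h7 : ε * R ^ 2 = δ := by
    rw [hε]; field_simp
  nlinarith

/-- Blaschke-Privalov: a continuous function whose Blaschke Laplacian vanishes at every point of a
disc has the mean value property for the boundary circle. -/
lemma blaschke_privalov (c : ℂ) (R : ℝ) (hR : 0 < R) (u : ℂ → ℝ)
    (hu : ContinuousOn u (closedBall c R))
    (hB : ∀ z ∈ ball c R, Tendsto (fun r : ℝ => (circleAverage u z r - u z) / r ^ 2)
      (𝓝[>] 0) (𝓝 0)) : circleAverage u c R = u c := by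
  have : Fact (0 < 2 * π) := ⟨Real.two_pi_pos⟩
  -- boundary values as a continuous function on the circle
  have hper : Function.Periodic (fun t : ℝ => ((u (circleMap c R t) : ℝ) : ℂ)) (2 * π) := by
    intro t
    simp only
    rw [periodic_circleMap c R t]
  have hcont : Continuous (fun t : ℝ => ((u (circleMap c R t) : ℝ) : ℂ)) := by
    apply Complex.continuous_ofReal.comp
    rw [← continuousOn_univ]
    apply hu.comp (continuous_circleMap c R).continuousOn
    intro t _
    exact sphere_subset_closedBall (circleMap_mem_sphere c hR.le t)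
  let g : C(AddCircle (2 * π), ℂ) := ⟨hper.lift, by
    apply continuous_coinduced_dom.mpr
    exact hcont⟩
  have hg : ∀ t : ℝ, g (t : AddCircle (2 * π)) = ((u (circleMap c R t) : ℝ) : ℂ) := fun t => rfl
  refine eq_of_forall_dist_le fun δ hδ => ?_
  have hδ2 : 0 < δ / 2 := by positivity
  obtain ⟨p, hp, hpg⟩ : ∃ p ∈ Submodule.span ℂ (Set.range (@fourier (2 * π))), dist g p < δ / 2 := by
    have h1 : g ∈ (Submodule.span ℂ (Set.range (@fourier (2 * π)))).topologicalClosure := by
      rw [span_fourier_closure_eq_top]; trivial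
    exact Metric.mem_closure_iff.mp h1 (δ / 2) hδ2
  obtain ⟨h, hc, hmv, hbdry⟩ := exists_harmonic_ext c R hR p hp
  set k : ℂ → ℝ := fun z => (h z).re with hk
  have hkc : Continuous k := Complex.continuous_re.comp hc
  have hkmv : ∀ z r, circleAverage k z r = k z := by
    intro z r
    have h2 := (Complex.reCLM).circleAverage_comp_comm (c := z) (R := r)
      (f := h) (hc.continuousOn.circleIntegrable')
    rw [hmv] at h2
    exact h2
  have hclose : ∀ z ∈ sphere c R, |u z - k z| ≤ δ / 2 := by
    intro z hz
    obtain ⟨t, rfl⟩ : ∃ t : ℝ, circleMap c R t = z := by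
      have : z ∈ Set.range (circleMap c R) := by
        rw [range_circleMap, abs_of_pos hR]; exact hz
      exact this
    have h3 : dist (g (t : AddCircle (2 * π))) (p t) ≤ dist g p := ContinuousMap.dist_apply_le_dist _
    rw [hg, ← hbdry, dist_eq_norm] at h3
    have h4 : |((((u (circleMap c R t) : ℝ) : ℂ)) - h (circleMap c R t)).re| ≤ _ :=
      Complex.abs_re_le_norm _
    simp only [Complex.sub_re, Complex.ofReal_re] at h4
    simp only [hk]
    linarith
  have hdiffB : ∀ (s : ℝ) (b : ℝ), ∀ z ∈ ball c R, Tendsto (fun r : ℝ =>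
      (circleAverage (fun z => s * (u z - k z) + b) z r - (s * (u z - k z) + b)) / r ^ 2)
      (𝓝[>] 0) (𝓝 0) := by
    intro s b z hz
    have h5 := (hB z hz).const_mul s
    rw [mul_zero] at h5
    refine h5.congr' ?_
    obtain ⟨ρ, hρ, hball⟩ := Metric.isOpen_iff.mp isOpen_ball z hz
    filter_upwards [Ioo_mem_nhdsGT hρ] with r hr
    have hsub : sphere z r ⊆ closedBall c R :=
      (sphere_subset_closedBall.trans (closedBall_subset_ball hr.2)).trans
        (hball.trans ball_subset_closedBall)
    have hintu : CircleIntegrable u z r := ContinuousOn.circleIntegrable hr.1.le (hu.mono hsub)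
    have hintk : CircleIntegrable k z r := ContinuousOn.circleIntegrable hr.1.le hkc.continuousOn
    have h6 : circleAverage (fun z => s * (u z - k z) + b) z r =
        s * (circleAverage u z r - k z) + b := by
      rw [circleAverage_fun_add, circleAverage_const]
      · congr 1
        have h7 : circleAverage (fun z => s * (u z - k z)) z r =
          s • circleAverage (fun z => (u z - k z)) z r := by
          rw [← circleAverage_fun_smul]; rfl
        rw [h7, circleAverage_fun_sub hintu hintk, hkmv]
        rfl
      · apply ContinuousOn.circleIntegrable hr.1.le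
        exact ContinuousOn.mul continuousOn_const ((hu.mono hsub).sub hkc.continuousOn)
      · exact circleIntegrable_const _ _ _
    rw [h6]
    ring
  have hin : ∀ (s : ℝ), |s| = 1 → s * (u c - k c) + (-(δ / 2)) ≤ 0 := by
    intro s hs
    have h8 := max_principle c R hR (fun z => s * (u z - k z) + (-(δ / 2)))
      (ContinuousOn.add (ContinuousOn.mul continuousOn_const (hu.sub hkc.continuousOn))
        continuousOn_const) (hdiffB s (-(δ / 2))) (by
        intro z hz
        have h9 := hclose z hz
        have h10 : s * (u z - k z) ≤ |u z - k z| := by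
          calc s * (u z - k z) ≤ |s * (u z - k z)| := le_abs_self _
            _ = |u z - k z| := by rw [abs_mul, hs, one_mul]
        linarith)
    exact h8 c (mem_closedBall_self hR.le)
  have hA := hin 1 (by simp)
  have hB' := hin (-1) (by simp)
  have hintu : CircleIntegrable u c R := ContinuousOn.circleIntegrable hR.le
    (hu.mono sphere_subset_closedBall)
  have hintk : CircleIntegrable k c R := ContinuousOn.circleIntegrable hR.le hkc.continuousOn
  have hU : circleAverage u c R - k c ≤ δ / 2 := by
    have : circleAverage (fun z => u z - k z) c R ≤ δ / 2 := by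
      apply circleAverage_mono_on_of_le_circle
      · exact hintu.sub hintk
      · intro x hx
        rw [abs_of_pos hR] at hx
        exact (le_abs_self _).trans (hclose x hx)
    rw [circleAverage_fun_sub hintu hintk, hkmv] at this
    exact this
  have hL : k c - circleAverage u c R ≤ δ / 2 := by
    have : circleAverage (fun z => k z - u z) c R ≤ δ / 2 := by
      apply circleAverage_mono_on_of_le_circle
      · exact hintk.sub hintu
      · intro x hx
        rw [abs_of_pos hR] at hx
        have := hclose x hx
        rw [abs_sub_comm] at this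
        exact (le_abs_self _).trans this
    rw [circleAverage_fun_sub hintk hintu, hkmv] at this
    exact this
  rw [Real.dist_eq, abs_le]
  constructor <;> linarith

/-- The conjugate Cauchy kernel. -/
noncomputable def ker (ξ : ℂ) : ℂ := ((starRingEnd ℂ) ξ)⁻¹

lemma norm_ker (ξ : ℂ) : ‖ker ξ‖ = ‖ξ‖⁻¹ := by
  simp [ker]

lemma measurable_ker : Measurable ker := by
  unfold ker
  exact (Complex.continuous_conj.measurable).inv

lemma locallyIntegrable_ker : LocallyIntegrable ker (volume : Measure ℂ) := by
  refine locallyIntegrable_of_norm_le_rpow (C := 1) (α := 1) ?_ ?_ ?_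
    measurable_ker.aestronglyMeasurable
  · simp [Complex.finrank_real_complex]
  · simp [Complex.finrank_real_complex]
  · refine Eventually.of_forall fun x => ?_
    rw [norm_ker, Real.rpow_neg (norm_nonneg x), Real.rpow_one, one_mul]

lemma locallyIntegrable_norm_ker : LocallyIntegrable (fun ξ => ‖ker ξ‖) (volume : Measure ℂ) := by
  refine locallyIntegrable_of_norm_le_rpow (C := 1) (α := 1) ?_ ?_ ?_
    measurable_ker.norm.aestronglyMeasurable
  · simp [Complex.finrank_real_complex]
  · simp [Complex.finrank_real_complex]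
  · refine Eventually.of_forall fun x => ?_
    rw [norm_norm, norm_ker, Real.rpow_neg (norm_nonneg x), Real.rpow_one, one_mul]

/-- The potential. -/
noncomputable def pot (F : ℂ → ℂ) (z : ℂ) : ℂ := ∫ ζ, F ζ * ker (z - ζ)

lemma continuous_pot (F : ℂ → ℂ) (hF : Continuous F) (hc : HasCompactSupport F) :
    Continuous (pot F) :=
  hc.continuous_convolution_left (ContinuousLinearMap.mul ℝ ℂ) hF locallyIntegrable_ker

lemma integrable_pot (F : ℂ → ℂ) (hF : Continuous F) (hc : HasCompactSupport F) (z : ℂ) :
    Integrable (fun ζ => F ζ * ker (z - ζ)) :=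
  (hc.convolutionExists_left (ContinuousLinearMap.mul ℝ ℂ) hF locallyIntegrable_ker) z

/-- mean of the kernel over a circle -/
lemma circleAverage_ker_of_lt (z ζ : ℂ) (r : ℝ) (hr : 0 < r) (h : r < ‖ζ - z‖) :
    circleAverage (fun w => ker (w - ζ)) z r = ker (z - ζ) := by
  have hne : ∀ w ∈ closedBall z |r|, w - ζ ≠ 0 := by
    intro w hw h0
    rw [abs_of_pos hr, mem_closedBall, dist_eq_norm] at hw
    have : w = ζ := by rwa [sub_eq_zero] at h0
    rw [this] at hw
    linarith
  have hd : DiffContOnCl ℂ (fun w => (w - ζ)⁻¹) (ball z |r|) := by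
    apply DifferentiableOn.diffContOnCl
    rw [closure_ball _ (by rw [abs_of_pos hr]; exact hr.ne')]
    intro w hw
    have h0 : DifferentiableAt ℂ (fun w : ℂ => w - ζ) w := by fun_prop
    exact (h0.inv (hne w hw)).differentiableWithinAt
  have h1 := hd.circleAverage
  have hci : CircleIntegrable (fun w => (w - ζ)⁻¹) z r := by
    apply ContinuousOn.circleIntegrable'
    intro w hw
    have h0 : ContinuousAt (fun w : ℂ => w - ζ) w := by fun_prop
    exact (h0.inv₀ (hne w (sphere_subset_closedBall hw))).continuousWithinAt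
  have h2 := (Complex.conjCLE : ℂ →L[ℝ] ℂ).circleAverage_comp_comm (c := z) (R := r)
    (f := fun w : ℂ => (w - ζ)⁻¹) hci
  rw [h1] at h2
  have h3 : (⇑(Complex.conjCLE : ℂ →L[ℝ] ℂ) ∘ fun w : ℂ => (w - ζ)⁻¹) = fun w => ker (w - ζ) := by
    funext w
    simp [ker]
  rw [h3] at h2
  rw [h2]
  simp [ker]

lemma circleAverage_ker_of_gt (z ζ : ℂ) (r : ℝ) (hr : 0 < r) (h : ‖ζ - z‖ < r) :
    circleAverage (fun w => ker (w - ζ)) z r = 0 := by
  have hne : ∀ w ∈ sphere z r, w - ζ ≠ 0 := by
    intro w hw h0
    rw [mem_sphere, dist_eq_norm] at hw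
    have : w = ζ := by rwa [sub_eq_zero] at h0
    rw [this] at hw
    linarith
  have hci : CircleIntegrable (fun w => (w - ζ)⁻¹) z r := by
    apply ContinuousOn.circleIntegrable hr.le
    intro w hw
    have h0 : ContinuousAt (fun w : ℂ => w - ζ) w := by fun_prop
    exact (h0.inv₀ (hne w hw)).continuousWithinAt
  have h1 : circleAverage (fun w => (w - ζ)⁻¹) z r = 0 := by
    rw [circleAverage_eq_circleIntegral hr.ne']
    have h4 : (∮ w in C(z, r), (w - z)⁻¹ • (w - ζ)⁻¹) = 0 := by
      rcases eq_or_ne ζ z with rfl | hne'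
      · have : ∀ w : ℂ, (w - ζ)⁻¹ • (w - ζ)⁻¹ = (w - ζ) ^ (-2 : ℤ) := by
          intro w
          rw [smul_eq_mul, zpow_neg, ← mul_inv]
          norm_cast
          rw [pow_two]
        simp_rw [this]
        exact circleIntegral.integral_sub_zpow_of_ne (by norm_num) _ _ _
      · have hz : z - ζ ≠ 0 := sub_ne_zero.mpr hne'.symm
        have h5 : (∮ w in C(z, r), (w - z)⁻¹ • (w - ζ)⁻¹) =
            ∮ w in C(z, r), (z - ζ)⁻¹ • ((w - z)⁻¹ - (w - ζ)⁻¹) := by
          apply circleIntegral.integral_congr hr.le
          intro w hw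
          have hw1 := hne w hw
          have hw2 : w - z ≠ 0 := by
            intro h0
            rw [mem_sphere, dist_eq_norm, h0, norm_zero] at hw
            linarith
          simp only [smul_eq_mul]
          field_simp
          ring
        rw [h5, circleIntegral.integral_smul, circleIntegral.integral_sub,
          circleIntegral.integral_sub_center_inv _ hr.ne',
          circleIntegral.integral_sub_inv_of_mem_ball, sub_self, smul_zero]
        · rw [mem_ball, dist_eq_norm]; exact h
        · apply ContinuousOn.circleIntegrable hr.le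
          intro w hw
          have hw2 : w - z ≠ 0 := by
            intro h0
            rw [mem_sphere, dist_eq_norm, h0, norm_zero] at hw
            linarith
          have h0 : ContinuousAt (fun w : ℂ => w - z) w := by fun_prop
          exact (h0.inv₀ hw2).continuousWithinAt
        · exact hci
    rw [h4, smul_zero]
  have h2 := (Complex.conjCLE : ℂ →L[ℝ] ℂ).circleAverage_comp_comm (c := z) (R := r)
    (f := fun w : ℂ => (w - ζ)⁻¹) hci
  rw [h1] at h2
  have h3 : (⇑(Complex.conjCLE : ℂ →L[ℝ] ℂ) ∘ fun w : ℂ => (w - ζ)⁻¹) = fun w => ker (w - ζ) := by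
    funext w
    simp [ker]
  rw [h3] at h2
  rw [h2]
  simp

lemma integrable_prod_pot (F : ℂ → ℂ) (hF : Continuous F) (hc : HasCompactSupport F) (z : ℂ)
    (r : ℝ) : Integrable (Function.uncurry fun (θ : ℝ) (ζ : ℂ) => F ζ * ker (circleMap z r θ - ζ))
      ((volume.restrict (Set.uIoc 0 (2 * π))).prod volume) := by
  have hmeas : Measurable (Function.uncurry fun (θ : ℝ) (ζ : ℂ) => F ζ * ker (circleMap z r θ - ζ)) := by
    apply Measurable.mul
    · exact hF.measurable.comp measurable_snd
    · apply measurable_ker.comp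
      exact ((continuous_circleMap z r).measurable.comp measurable_fst).sub measurable_snd
  rw [integrable_prod_iff hmeas.aestronglyMeasurable]
  constructor
  · refine Eventually.of_forall fun θ => ?_
    have h0 := integrable_pot F hF hc (circleMap z r θ)
    simpa only [Function.uncurry] using h0
  · have h1 : Continuous (fun z' => ∫ ζ, ‖F ζ‖ * ‖ker (z' - ζ)‖) := by
      have h0 : Continuous (MeasureTheory.convolution (fun ζ => ‖F ζ‖) (fun ζ => ‖ker ζ‖)
          (ContinuousLinearMap.mul ℝ ℝ) volume) :=
        (hc.norm).continuous_convolution_left (ContinuousLinearMap.mul ℝ ℝ) hF.norm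
        locallyIntegrable_norm_ker
      exact h0
    have h2 : Continuous (fun θ : ℝ => ∫ ζ, ‖F ζ‖ * ‖ker (circleMap z r θ - ζ)‖) :=
      h1.comp (continuous_circleMap z r)
    have h3 : (fun θ : ℝ => ∫ ζ, ‖Function.uncurry (fun (θ : ℝ) (ζ : ℂ) =>
        F ζ * ker (circleMap z r θ - ζ)) (θ, ζ)‖) =
        fun θ : ℝ => ∫ ζ, ‖F ζ‖ * ‖ker (circleMap z r θ - ζ)‖ := by
      funext θ
      simp [Function.uncurry]
    rw [h3]
    exact (h2.integrableOn_uIcc).mono_set uIoc_subset_uIcc

lemma circleAverage_pot (F : ℂ → ℂ) (hF : Continuous F) (hc : HasCompactSupport F) (z : ℂ)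
    (r : ℝ) (hr : 0 < r) :
    circleAverage (pot F) z r - pot F z = - ∫ ζ in ball z r, F ζ * ker (z - ζ) := by
  have h1 : circleAverage (pot F) z r =
      ∫ ζ, F ζ * circleAverage (fun w => ker (w - ζ)) z r := by
    rw [circleAverage_def]
    unfold pot
    rw [intervalIntegral_integral_swap (integrable_prod_pot F hF hc z r)]
    rw [← integral_smul]
    congr 1
    funext ζ
    rw [intervalIntegral.integral_const_mul, circleAverage_def]
    exact (mul_smul_comm _ _ _).symm
  have h2 : (∫ ζ, F ζ * circleAverage (fun w => ker (w - ζ)) z r) =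
      ∫ ζ, (ball z r)ᶜ.indicator (fun ζ => F ζ * ker (z - ζ)) ζ := by
    apply integral_congr_ae
    have hs : ∀ᵐ ζ ∂(volume : Measure ℂ), ζ ∉ sphere z r := by
      rw [ae_iff]
      simp only [not_not]
      exact Measure.addHaar_sphere volume z r
    filter_upwards [hs] with ζ hζ
    rcases lt_trichotomy ‖ζ - z‖ r with h | h | h
    · rw [circleAverage_ker_of_gt z ζ r hr h, Set.indicator_of_notMem, mul_zero]
      simp only [mem_compl_iff, not_not]
      rw [mem_ball, dist_eq_norm]; exact h
    · exact absurd (by rw [mem_sphere, dist_eq_norm]; exact h) hζ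
    · rw [circleAverage_ker_of_lt z ζ r hr h, Set.indicator_of_mem]
      rw [mem_compl_iff, mem_ball, dist_eq_norm]
      linarith
  rw [h1, h2, integral_indicator measurableSet_ball.compl]
  have h3 := integral_add_compl (measurableSet_ball (x := z) (ε := r)) (integrable_pot F hF hc z)
  unfold pot
  rw [← h3]
  ring

/-- The weighted circle mean. -/
noncomputable def wm (F : ℂ → ℂ) (z : ℂ) (s : ℝ) : ℂ :=
  ∫ θ in (0 : ℝ)..2 * π, F (circleMap z s θ) * Complex.exp (θ * I)

lemma continuous_wm (F : ℂ → ℂ) (hF : Continuous F) (z : ℂ) : Continuous (wm F z) := by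
  unfold wm
  apply intervalIntegral.continuous_parametric_intervalIntegral_of_continuous'
  simp only [circleMap]
  fun_prop

lemma integral_ball_eq (F : ℂ → ℂ) (hF : Continuous F) (z : ℂ) (r : ℝ) (hr : 0 < r) :
    (∫ ζ in ball z r, F ζ * ker (z - ζ)) = - ∫ s in (0 : ℝ)..r, wm F z s := by
  have h1 : (∫ ζ in ball z r, F ζ * ker (z - ζ)) =
      ∫ ξ, (ball (0 : ℂ) r).indicator (fun ξ => F (z + ξ) * ker (-ξ)) ξ := by
    rw [← integral_indicator measurableSet_ball,
      ← integral_add_left_eq_self (μ := volume)
        (fun ζ => (ball z r).indicator (fun ζ => F ζ * ker (z - ζ)) ζ) z]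
    congr 1
    funext ξ
    by_cases hξ : ξ ∈ ball (0 : ℂ) r
    · rw [Set.indicator_of_mem hξ, Set.indicator_of_mem]
      · congr 2; ring
      · simpa [mem_ball, dist_eq_norm] using hξ
    · rw [Set.indicator_of_notMem hξ, Set.indicator_of_notMem]
      simpa [mem_ball, dist_eq_norm] using hξ
  rw [h1, ← Complex.integral_comp_polarCoord_symm]
  set H : ℝ × ℝ → ℂ := fun p => - (F (circleMap z p.1 p.2) * Complex.exp (p.2 * I)) with hH
  have hHc : Continuous H := by
    simp only [hH, circleMap]
    fun_prop
  have h2 : (∫ p in polarCoord.target, p.1 • (ball (0 : ℂ) r).indicator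
      (fun ξ => F (z + ξ) * ker (-ξ)) (Complex.polarCoord.symm p)) =
      ∫ p in polarCoord.target, (Set.Iio r ×ˢ (Set.univ : Set ℝ)).indicator H p := by
    apply setIntegral_congr_fun
    · exact polarCoord.open_target.measurableSet
    · intro p hp
      simp only [polarCoord_target, mem_prod, mem_Ioi, mem_Ioo] at hp
      obtain ⟨hp1, -⟩ := hp
      have hsym : Complex.polarCoord.symm p = p.1 * Complex.exp (p.2 * I) := by
        rw [Complex.polarCoord_symm_apply, Complex.exp_mul_I]
        push_cast; rfl
      have hp1' : (p.1 : ℂ) ≠ 0 := by exact_mod_cast hp1.ne'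
      by_cases hpr : p.1 < r
      · have hmem : Complex.polarCoord.symm p ∈ ball (0 : ℂ) r := by
          rw [mem_ball, dist_zero_right, Complex.norm_polarCoord_symm, abs_of_pos hp1]
          exact hpr
        simp only
        rw [Set.indicator_of_mem hmem, Set.indicator_of_mem (show p ∈ Set.Iio r ×ˢ (Set.univ : Set ℝ)
          from ⟨hpr, trivial⟩)]
        simp only [hH, circleMap, hsym]
        have hk : ker (-((p.1 : ℂ) * Complex.exp (p.2 * I))) =
            -((p.1 : ℂ)⁻¹ * Complex.exp (p.2 * I)) := by
          simp only [ker, map_neg, map_mul, Complex.conj_ofReal, ← Complex.exp_conj, Complex.conj_I,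
            inv_neg, mul_inv, mul_neg, Complex.exp_neg, inv_inv]
        rw [hk, Complex.real_smul]
        field_simp
      · have hmem : Complex.polarCoord.symm p ∉ ball (0 : ℂ) r := by
          rw [mem_ball, dist_zero_right, Complex.norm_polarCoord_symm, abs_of_pos hp1]
          exact hpr
        simp only
        rw [Set.indicator_of_notMem hmem, Set.indicator_of_notMem, smul_zero]
        rintro ⟨h, -⟩
        exact hpr h
  rw [h2]
  have hms : MeasurableSet (Set.Iio r ×ˢ (Set.univ : Set ℝ)) := measurableSet_Iio.prod .univ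
  rw [setIntegral_indicator hms]
  have hset : polarCoord.target ∩ (Set.Iio r ×ˢ (Set.univ : Set ℝ)) =
      Set.Ioo 0 r ×ˢ Set.Ioo (-π) π := by
    ext p
    simp only [polarCoord_target, mem_inter_iff, mem_prod, mem_Ioi, mem_Ioo, mem_Iio, mem_univ]
    tauto
  rw [hset, Measure.volume_eq_prod, setIntegral_prod]
  · have h3 : ∀ s : ℝ, (∫ θ in Set.Ioo (-π) π, H (s, θ)) = - wm F z s := by
      intro s
      rw [← integral_Ioc_eq_integral_Ioo, ← intervalIntegral.integral_of_le (by linarith [Real.pi_pos])]
      have hper : Function.Periodic (fun θ : ℝ => H (s, θ)) (2 * π) := by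
        intro θ
        simp only [hH]
        rw [periodic_circleMap z s θ]
        congr 2
        push_cast
        rw [add_mul, Complex.exp_periodic (θ * I)]
      have h4 := hper.intervalIntegral_add_eq (-π) 0
      rw [show -π + 2 * π = π by ring, zero_add] at h4
      rw [h4]
      simp only [hH, wm, intervalIntegral.integral_neg]
    simp_rw [h3]
    rw [← integral_Ioc_eq_integral_Ioo, ← intervalIntegral.integral_of_le hr.le,
      intervalIntegral.integral_neg]
  · rw [← Measure.volume_eq_prod]
    apply (hHc.continuousOn.integrableOn_compact (isCompact_Icc (a := ((0 : ℝ), (-π : ℝ)))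
      (b := (r, π)))).mono_set
    rintro p ⟨hp1, hp2⟩
    exact ⟨⟨hp1.1.le, hp2.1.le⟩, ⟨hp1.2.le, hp2.2.le⟩⟩

lemma circleAverage_pot_eq (F : ℂ → ℂ) (hF : Continuous F) (hc : HasCompactSupport F) (z : ℂ)
    (r : ℝ) (hr : 0 < r) :
    circleAverage (pot F) z r - pot F z = ∫ s in (0 : ℝ)..r, wm F z s := by
  rw [circleAverage_pot F hF hc z r hr, integral_ball_eq F hF z r hr, neg_neg]

/-- The primitive of `wm` is small when `wm` is small. -/
lemma tendsto_integral_wm (F : ℂ → ℂ) (z : ℂ)
    (h : Tendsto (fun s : ℝ => wm F z s / (s : ℂ)) (𝓝[>] 0) (𝓝 0)) :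
    Tendsto (fun r : ℝ => (∫ s in (0 : ℝ)..r, wm F z s) / (r : ℂ) ^ 2) (𝓝[>] 0) (𝓝 0) := by
  rw [Metric.tendsto_nhds] at h ⊢
  intro ε hε
  have h1 := h ε hε
  obtain ⟨ρ, hρ, hsub⟩ := mem_nhdsGT_iff_exists_Ioo_subset.mp h1
  filter_upwards [Ioo_mem_nhdsGT hρ] with r hr
  have hb : ∀ s ∈ Set.Ioc (0 : ℝ) r, ‖wm F z s‖ ≤ ε * s := by
    intro s hs
    have h2 := hsub (show s ∈ Ioo 0 ρ from ⟨hs.1, hs.2.trans_lt hr.2⟩)
    simp only [Set.mem_ofPred_eq, dist_zero_right, norm_div, Complex.norm_real, Real.norm_eq_abs,
      abs_of_pos hs.1] at h2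
    exact ((div_lt_iff₀ hs.1).mp h2).le
  have h3 : ‖∫ s in (0 : ℝ)..r, wm F z s‖ ≤ ∫ s in (0 : ℝ)..r, ε * s := by
    apply intervalIntegral.norm_integral_le_of_norm_le hr.1.le
    · exact Eventually.of_forall fun s hs => hb s hs
    · exact Continuous.intervalIntegrable (by fun_prop) _ _
  rw [intervalIntegral.integral_const_mul, integral_id] at h3
  rw [dist_zero_right, norm_div, norm_pow, Complex.norm_real, Real.norm_eq_abs, sq_abs,
    div_lt_iff₀ (by have := hr.1; positivity)]
  have : 0 < r := hr.1
  nlinarith [mul_pos hε (mul_pos this this)]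

lemma pot_mean (F : ℂ → ℂ) (hF : Continuous F) (hc : HasCompactSupport F) (z0 : ℂ) (R0 : ℝ)
    (h : ∀ z ∈ ball z0 R0, Tendsto (fun s : ℝ => wm F z s / (s : ℂ)) (𝓝[>] 0) (𝓝 0))
    (z : ℂ) (r : ℝ) (hr : 0 < r) (hzr : r + dist z z0 < R0) :
    circleAverage (pot F) z r = pot F z := by
  have hpc := continuous_pot F hF hc
  have hsub : ball z r ⊆ ball z0 R0 := ball_subset_ball' hzr.le
  have hci : ∀ z' r', CircleIntegrable (pot F) z' r' := fun z' r' =>
    hpc.continuousOn.circleIntegrable'
  have hlim : ∀ z' ∈ ball z r, Tendsto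
      (fun t : ℝ => (circleAverage (pot F) z' t - pot F z') / (t : ℂ) ^ 2) (𝓝[>] 0) (𝓝 0) := by
    intro z' hz'
    have h1 := tendsto_integral_wm F z' (h z' (hsub hz'))
    refine h1.congr' ?_
    filter_upwards [self_mem_nhdsWithin] with t ht
    rw [circleAverage_pot_eq F hF hc z' t ht]
  have hre : circleAverage (fun w => (pot F w).re) z r = (pot F z).re := by
    apply blaschke_privalov z r hr (fun w => (pot F w).re)
      (Complex.continuous_re.comp hpc).continuousOn
    intro z' hz'
    have h2 := (Complex.continuous_re.tendsto 0).comp (hlim z' hz')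
    simp only [Complex.zero_re] at h2
    refine h2.congr' ?_
    filter_upwards [self_mem_nhdsWithin] with t ht
    have h3 := (Complex.reCLM).circleAverage_comp_comm (hci z' t)
    have h4 : circleAverage (fun w => (pot F w).re) z' t = (circleAverage (pot F) z' t).re := h3
    rw [h4]
    simp only [Function.comp]
    rw [← Complex.ofReal_pow, Complex.div_ofReal_re, Complex.sub_re]
  have him : circleAverage (fun w => (pot F w).im) z r = (pot F z).im := by
    apply blaschke_privalov z r hr (fun w => (pot F w).im)
      (Complex.continuous_im.comp hpc).continuousOn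
    intro z' hz'
    have h2 := (Complex.continuous_im.tendsto 0).comp (hlim z' hz')
    simp only [Complex.zero_im] at h2
    refine h2.congr' ?_
    filter_upwards [self_mem_nhdsWithin] with t ht
    have h3 := (Complex.imCLM).circleAverage_comp_comm (hci z' t)
    have h4 : circleAverage (fun w => (pot F w).im) z' t = (circleAverage (pot F) z' t).im := h3
    rw [h4]
    simp only [Function.comp]
    rw [← Complex.ofReal_pow, Complex.div_ofReal_im, Complex.sub_im]
  apply Complex.ext
  · rw [← hre]
    exact ((Complex.reCLM).circleAverage_comp_comm (hci z r)).symm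
  · rw [← him]
    exact ((Complex.imCLM).circleAverage_comp_comm (hci z r)).symm

lemma wm_eq_zero (F : ℂ → ℂ) (hF : Continuous F) (hc : HasCompactSupport F) (z0 : ℂ) (R0 : ℝ)
    (h : ∀ z ∈ ball z0 R0, Tendsto (fun s : ℝ => wm F z s / (s : ℂ)) (𝓝[>] 0) (𝓝 0))
    (z : ℂ) (r : ℝ) (hr : 0 < r) (hzr : r + dist z z0 < R0) : wm F z r = 0 := by
  have h1 : ∀ t : ℝ, 0 < t → t < R0 - dist z z0 → (∫ s in (0 : ℝ)..t, wm F z s) = 0 := by
    intro t ht htR
    rw [← circleAverage_pot_eq F hF hc z t ht, pot_mean F hF hc z0 R0 h z t ht (by linarith),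
      sub_self]
  have h2 : HasDerivAt (fun t : ℝ => ∫ s in (0 : ℝ)..t, wm F z s) (wm F z r) r := by
    apply intervalIntegral.integral_hasDerivAt_right
    · exact (continuous_wm F hF z).intervalIntegrable _ _
    · exact (continuous_wm F hF z).stronglyMeasurableAtFilter _ _
    · exact (continuous_wm F hF z).continuousAt
  have h3 : (fun t : ℝ => ∫ s in (0 : ℝ)..t, wm F z s) =ᶠ[𝓝 r] fun _ => 0 := by
    filter_upwards [Ioo_mem_nhds hr (show r < R0 - dist z z0 by linarith)] with t ht
    exact h1 t ht.1 ht.2
  have h4 : HasDerivAt (fun t : ℝ => ∫ s in (0 : ℝ)..t, wm F z s) 0 r :=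
    (hasDerivAt_const r (0 : ℂ)).congr_of_eventuallyEq h3
  exact h2.unique h4

lemma wm_affine (a b c : ℂ) (z : ℂ) (s : ℝ) :
    wm (fun w => c + a * (w - z) + b * (starRingEnd ℂ) (w - z)) z s = 2 * π * s * b := by
  unfold wm
  have h1 : ∀ θ : ℝ, (c + a * (circleMap z s θ - z) + b * (starRingEnd ℂ) (circleMap z s θ - z)) *
      Complex.exp (θ * I) = c * Complex.exp (θ * I) + a * s * Complex.exp ((2 : ℂ) * I * θ)
        + b * s := by
    intro θ
    simp only [circleMap, add_sub_cancel_left, map_mul, Complex.conj_ofReal, ← Complex.exp_conj,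
      Complex.conj_I, mul_neg]
    have h2 : Complex.exp (-(θ * I)) * Complex.exp (θ * I) = 1 := by
      rw [← Complex.exp_add]; simp
    have h3 : Complex.exp (θ * I) * Complex.exp (θ * I) = Complex.exp ((2 : ℂ) * I * θ) := by
      rw [← Complex.exp_add]; congr 1; ring
    calc _ = c * Complex.exp (θ * I) + a * s * (Complex.exp (θ * I) * Complex.exp (θ * I))
        + b * s * (Complex.exp (-(θ * I)) * Complex.exp (θ * I)) := by ring
      _ = _ := by rw [h2, h3]; ring
  simp_rw [h1]
  have hI1 : (∫ θ in (0 : ℝ)..2 * π, Complex.exp (θ * I)) = 0 := by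
    have h5 := integral_exp_mul_complex (a := 0) (b := 2 * π) (c := I) Complex.I_ne_zero
    have h6 : (fun θ : ℝ => Complex.exp (θ * I)) = fun θ : ℝ => Complex.exp (I * θ) := by
      funext θ; rw [mul_comm]
    rw [h6, h5]
    have h7 : Complex.exp (I * ((2 * π : ℝ) : ℂ)) = 1 := by
      rw [mul_comm]; push_cast; exact Complex.exp_two_pi_mul_I
    rw [h7]
    simp
  have hI2 : (∫ θ in (0 : ℝ)..2 * π, Complex.exp ((2 : ℂ) * I * θ)) = 0 := by
    rw [integral_exp_mul_complex (a := 0) (b := 2 * π) (c := (2 : ℂ) * I)
      (mul_ne_zero two_ne_zero Complex.I_ne_zero)]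
    have h7 : Complex.exp ((2 : ℂ) * I * ((2 * π : ℝ) : ℂ)) = 1 := by
      have : (2 : ℂ) * I * ((2 * π : ℝ) : ℂ) = ((2 : ℤ) : ℂ) * (2 * π * I) := by push_cast; ring
      rw [this]
      exact Complex.exp_int_mul_two_pi_mul_I 2
    rw [h7]
    simp
  rw [intervalIntegral.integral_add, intervalIntegral.integral_add,
    intervalIntegral.integral_const_mul, intervalIntegral.integral_const_mul, hI1, hI2]
  · simp only [mul_zero, add_zero, zero_add, intervalIntegral.integral_const, sub_zero,
      Complex.real_smul]
    push_cast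
    ring
  · exact Continuous.intervalIntegrable (by fun_prop) _ _
  · exact Continuous.intervalIntegrable (by fun_prop) _ _
  · exact Continuous.intervalIntegrable (by fun_prop) _ _
  · exact Continuous.intervalIntegrable (by fun_prop) _ _

lemma norm_wm_le (F : ℂ → ℂ) (z : ℂ) (s C : ℝ) (h : ∀ w ∈ sphere z |s|, ‖F w‖ ≤ C) :
    ‖wm F z s‖ ≤ C * (2 * π) := by
  unfold wm
  have h1 := intervalIntegral.norm_integral_le_of_norm_le_const (a := (0 : ℝ)) (b := 2 * π) (C := C)
    (f := fun θ : ℝ => F (circleMap z s θ) * Complex.exp (θ * I)) (by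
      intro θ _
      rw [norm_mul, Complex.norm_exp_ofReal_mul_I, mul_one]
      exact h _ (circleMap_mem_sphere' z s θ))
  rwa [sub_zero, abs_of_pos Real.two_pi_pos] at h1

lemma wm_sub (F G : ℂ → ℂ) (hF : Continuous F) (hG : Continuous G) (z : ℂ) (s : ℝ) :
    wm (fun w => F w - G w) z s = wm F z s - wm G z s := by
  unfold wm
  rw [← intervalIntegral.integral_sub]
  · congr 1
    funext θ
    ring
  · apply Continuous.intervalIntegrable
    simp only [circleMap]
    fun_prop
  · apply Continuous.intervalIntegrable
    simp only [circleMap]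
    fun_prop

/-- A real-differentiable function with vanishing small circle integrals is complex
differentiable. -/
lemma differentiableAt_of_wm (G : ℂ → ℂ) (hG : Continuous G) (z : ℂ) (hd : DifferentiableAt ℝ G z)
    (δ : ℝ) (hδ : 0 < δ) (h : ∀ s, 0 < s → s < δ → wm G z s = 0) : DifferentiableAt ℂ G z := by
  obtain ⟨L, hL⟩ := hd
  set a : ℂ := (L 1 - I * L I) / 2 with ha
  set b : ℂ := (L 1 + I * L I) / 2 with hb
  have hLab : ∀ v : ℂ, L v = a * v + b * (starRingEnd ℂ) v := by
    intro v
    have h1 : L v = v.re * L 1 + v.im * L I := by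
      conv_lhs => rw [← Complex.re_add_im v]
      rw [show ((v.re : ℂ) + v.im * I) = v.re • (1 : ℂ) + v.im • I by
        simp [Complex.real_smul], map_add, map_smul, map_smul]
      simp only [Complex.real_smul]
    have h2 : (starRingEnd ℂ) v = v.re - v.im * I := by
      apply Complex.ext <;> simp
    have hv : v = (v.re : ℂ) + (v.im : ℂ) * I := (Complex.re_add_im v).symm
    rw [h1, h2, ha, hb]
    have hI : I * I = -1 := Complex.I_mul_I
    linear_combination ((v.im : ℂ) * L I) * hI - ((L 1 - I * L I) / 2) * hv
  have hb0 : b = 0 := by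
    by_contra hbne
    have hbpos : 0 < ‖b‖ := norm_pos_iff.mpr hbne
    have h3 := (hasFDerivAt_iff_isLittleO.mp hL)
    have h4 := (Asymptotics.isLittleO_iff.mp h3) (show 0 < ‖b‖ / 2 by positivity)
    obtain ⟨η, hη, hball⟩ := Metric.eventually_nhds_iff.mp h4
    set s : ℝ := min η δ / 2 with hs
    have hs0 : 0 < s := by rw [hs]; positivity
    have hsη : s < η := by
      rw [hs]; have := min_le_left η δ; linarith [lt_min hη hδ]
    have hsδ : s < δ := by
      rw [hs]; have := min_le_right η δ; linarith [lt_min hη hδ]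
    have h5 := wm_sub G (fun w => G z + a * (w - z) + b * (starRingEnd ℂ) (w - z)) hG
      (by have := Complex.continuous_conj; fun_prop) z s
    rw [h s hs0 hsδ, wm_affine, zero_sub] at h5
    have h6 := norm_wm_le (fun w => G w - (G z + a * (w - z) + b * (starRingEnd ℂ) (w - z))) z s
      (‖b‖ / 2 * s) (by
        intro w hw
        rw [abs_of_pos hs0, mem_sphere] at hw
        have h7 := hball (show dist w z < η by rw [hw]; exact hsη)
        rw [hLab, ← dist_eq_norm w z, hw] at h7
        calc _ = ‖G w - G z - (a * (w - z) + b * (starRingEnd ℂ) (w - z))‖ := by congr 1; ring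
          _ ≤ _ := h7)
    rw [h5, norm_neg, norm_mul, norm_mul, norm_mul, Complex.norm_real, Complex.norm_real,
      Complex.norm_ofNat, Real.norm_eq_abs, Real.norm_eq_abs, abs_of_pos hs0,
      abs_of_pos Real.pi_pos] at h6
    have h8 : 0 < π * s * ‖b‖ := by positivity
    nlinarith
  have hL2 : HasFDerivAt G ((ContinuousLinearMap.toSpanSingleton ℂ a : ℂ →L[ℂ] ℂ).restrictScalars ℝ) z := by
    have : L = (ContinuousLinearMap.toSpanSingleton ℂ a : ℂ →L[ℂ] ℂ).restrictScalars ℝ := by
      apply ContinuousLinearMap.ext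
      intro v
      simp [hLab, hb0, mul_comm]
    rwa [← this]
  exact (hasFDerivAt_of_restrictScalars ℝ hL2 rfl).differentiableAt

/-- Circle means commute with mollification. -/
lemma wm_mollify (F : ℂ → ℂ) (hF : Continuous F) (hc : HasCompactSupport F)
    (φ : ContDiffBump (0 : ℂ)) (z : ℂ) (s : ℝ) :
    wm (MeasureTheory.convolution (φ.normed volume) F (ContinuousLinearMap.lsmul ℝ ℝ) volume) z s
      = ∫ ξ, (φ.normed volume ξ) • wm F (z - ξ) s := by
  have hconv : ∀ w : ℂ, MeasureTheory.convolution (φ.normed volume) F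
      (ContinuousLinearMap.lsmul ℝ ℝ) volume w = ∫ ξ, (φ.normed volume ξ) • F (w - ξ) := by
    intro w
    rfl
  obtain ⟨C, hC⟩ := hc.exists_bound_of_continuous hF
  have hφc : Continuous (φ.normed (volume : Measure ℂ)) := φ.continuous_normed
  have hφi : Integrable (φ.normed (volume : Measure ℂ)) := φ.integrable_normed
  have hint : Integrable (Function.uncurry fun (θ : ℝ) (ξ : ℂ) =>
      ((φ.normed volume ξ) • F (circleMap z s θ - ξ)) * Complex.exp (θ * I))
      ((volume.restrict (Set.uIoc 0 (2 * π))).prod volume) := by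
    have hcont : Continuous (Function.uncurry fun (θ : ℝ) (ξ : ℂ) =>
      ((φ.normed volume ξ) • F (circleMap z s θ - ξ)) * Complex.exp (θ * I)) := by
      have h1 : Continuous fun p : ℝ × ℂ => F (circleMap z s p.1 - p.2) := by
        simp only [circleMap]; fun_prop
      have h2 : Continuous fun p : ℝ × ℂ => φ.normed (volume : Measure ℂ) p.2 :=
        hφc.comp continuous_snd
      have h3 : Continuous fun p : ℝ × ℂ => Complex.exp ((p.1 : ℂ) * I) := by fun_prop
      exact (h2.smul h1).mul h3
    have hb : Integrable (fun p : ℝ × ℂ => (1 : ℝ) * (φ.normed (volume : Measure ℂ) p.2 * C))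
        ((volume.restrict (Set.uIoc 0 (2 * π))).prod volume) :=
      Integrable.mul_prod (f := fun _ : ℝ => (1 : ℝ))
        (g := fun ξ : ℂ => φ.normed (volume : Measure ℂ) ξ * C)
        (((continuous_const (y := (1 : ℝ))).integrableOn_uIcc (a := (0 : ℝ))
          (b := 2 * π)).mono_set uIoc_subset_uIcc)
        (hφi.mul_const C)
    apply hb.mono' hcont.aestronglyMeasurable
    refine Eventually.of_forall fun p => ?_
    simp only [Function.uncurry, norm_mul, norm_smul, Complex.norm_exp_ofReal_mul_I, mul_one,
      one_mul, Real.norm_eq_abs, abs_of_nonneg (φ.nonneg_normed (μ := volume) p.2)]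
    exact mul_le_mul_of_nonneg_left (hC _) (φ.nonneg_normed p.2)
  have h4 : wm (MeasureTheory.convolution (φ.normed volume) F
      (ContinuousLinearMap.lsmul ℝ ℝ) volume) z s =
      ∫ θ in (0 : ℝ)..2 * π, ∫ ξ, ((φ.normed volume ξ) • F (circleMap z s θ - ξ)) *
        Complex.exp (θ * I) := by
    unfold wm
    congr 1
    funext θ
    rw [hconv, integral_mul_const]
  rw [h4, intervalIntegral_integral_swap hint]
  congr 1
  funext ξ
  unfold wm
  rw [← intervalIntegral.integral_smul]
  congr 1
  funext θ
  have h5 : circleMap z s θ - ξ = circleMap (z - ξ) s θ := by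
    simp only [circleMap]; ring
  rw [h5, smul_mul_assoc]

lemma differentiableOn_of_wm (F : ℂ → ℂ) (hF : Continuous F) (hc : HasCompactSupport F) (z0 : ℂ)
    (R0 : ℝ) (hR0 : 0 < R0) (h : ∀ z s, 0 < s → s + dist z z0 < R0 → wm F z s = 0) :
    DifferentiableOn ℂ F (ball z0 (R0 / 2)) := by
  let φ : ℕ → ContDiffBump (0 : ℂ) := fun n =>
    ⟨R0 / (8 * (n + 1)), R0 / (4 * (n + 1)), by positivity, by
      apply div_lt_div_of_pos_left hR0 (by positivity)
      have : (0 : ℝ) ≤ n := Nat.cast_nonneg n
      linarith⟩
  have hrOut : ∀ n, (φ n).rOut = R0 / (4 * (n + 1)) := fun n => rfl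
  have hrOut_le : ∀ n, (φ n).rOut ≤ R0 / 4 := by
    intro n
    rw [hrOut]
    apply div_le_div_of_nonneg_left hR0.le (by norm_num)
    have : (0 : ℝ) ≤ n := Nat.cast_nonneg n
    linarith
  let G : ℕ → ℂ → ℂ := fun n =>
    MeasureTheory.convolution ((φ n).normed volume) F (ContinuousLinearMap.lsmul ℝ ℝ) volume
  have hGsmooth : ∀ n, ContDiff ℝ 1 (G n) := fun n =>
    (φ n).hasCompactSupport_normed.contDiff_convolution_left _ (φ n).contDiff_normed
      hF.locallyIntegrable
  have hGdiff : ∀ n, DifferentiableOn ℂ (G n) (ball z0 (R0 / 2)) := by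
    intro n z hz
    apply DifferentiableAt.differentiableWithinAt
    apply differentiableAt_of_wm (G n) (hGsmooth n).continuous z
      ((hGsmooth n).differentiable (by norm_num) z) (R0 / 4) (by positivity)
    intro s hs hsR
    rw [wm_mollify F hF hc]
    have : (fun ξ => ((φ n).normed volume ξ) • wm F (z - ξ) s) = fun _ => 0 := by
      funext ξ
      by_cases hξ : ξ ∈ Function.support ((φ n).normed volume)
      · rw [(φ n).support_normed_eq, mem_ball, dist_zero_right] at hξ
        rw [h (z - ξ) s hs, smul_zero]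
        have h1 : dist (z - ξ) z0 ≤ dist z z0 + ‖ξ‖ := by
          rw [dist_eq_norm, dist_eq_norm]
          calc ‖z - ξ - z0‖ = ‖(z - z0) - ξ‖ := by congr 1; ring
            _ ≤ _ := norm_sub_le _ _
        have h2 := hrOut_le n
        rw [mem_ball] at hz
        linarith
      · rw [Function.notMem_support.mp hξ, zero_smul]
    rw [this]
    simp
  have huc : UniformContinuous F := hc.uniformContinuous_of_continuous hF
  have hlim : TendstoUniformlyOn G F atTop (ball z0 (R0 / 2)) := by
    rw [Metric.tendstoUniformlyOn_iff]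
    intro ε hε
    obtain ⟨δ, hδ, hδ'⟩ := Metric.uniformContinuous_iff.mp huc (ε / 2) (by positivity)
    obtain ⟨N, hN⟩ := exists_nat_gt (R0 / δ)
    filter_upwards [eventually_ge_atTop N] with n hn x _
    have hout : (φ n).rOut < δ := by
      rw [hrOut, div_lt_iff₀ (by positivity)]
      have h1 : (N : ℝ) ≤ n := by exact_mod_cast hn
      rw [div_lt_iff₀ hδ] at hN
      nlinarith
    have h2 : dist (G n x) (F x) ≤ ε / 2 := by
      apply (φ n).dist_normed_convolution_le hF.aestronglyMeasurable
      intro y hy
      rw [mem_ball] at hy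
      exact (hδ' (hy.trans hout)).le
    rw [dist_comm]
    linarith
  exact hlim.tendstoLocallyUniformlyOn.differentiableOn (Eventually.of_forall hGdiff) isOpen_ball

/-- Localization: the weighted mean is the contour integral divided by `i s`. -/
lemma circleIntegral_eq_wm (F : ℂ → ℂ) (z : ℂ) (s : ℝ) :
    (∮ ζ in C(z, s), F ζ) = s * I * wm F z s := by
  unfold wm circleIntegral
  rw [← intervalIntegral.integral_const_mul]
  congr 1
  funext θ
  rw [deriv_circleMap, circleMap, smul_eq_mul]
  ring

/-- **Main theorem.** Let `D` be an open subset of the plane (for instance a domain) and let `f` be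
continuous on `D`.  If for every `z` in `D` the integral of `f` over the circle of radius `r`
about `z` is `o(r ^ 2)` as `r` tends to `0` from the right, then `f` is holomorphic in `D`. -/
theorem result (D : Set ℂ) (hD : IsOpen D) (f : ℂ → ℂ) (hf : ContinuousOn f D)
    (h : ∀ z ∈ D, Tendsto (fun r : ℝ => (∮ ζ in C(z, r), f ζ) / (r : ℂ) ^ 2) (𝓝[>] 0) (𝓝 0)) :
    DifferentiableOn ℂ f D := by
  intro z0 hz0
  apply DifferentiableAt.differentiableWithinAt
  obtain ⟨R, hR, hRD⟩ := Metric.isOpen_iff.mp hD z0 hz0
  -- a continuous compactly supported function which agrees with `f` near `z0`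
  let χ : ContDiffBump z0 := ⟨R / 4, R / 2, by positivity, by linarith⟩
  let F : ℂ → ℂ := fun z => (χ z : ℝ) • f z
  have hsub : tsupport (fun z => (χ z : ℝ)) ⊆ closedBall z0 (R / 2) := by
    rw [χ.tsupport_eq]
  have htsF : tsupport F ⊆ tsupport (fun z => (χ z : ℝ)) := tsupport_smul_subset_left _ _
  have hsD : tsupport F ⊆ D :=
    (htsF.trans hsub).trans ((closedBall_subset_ball (by linarith)).trans hRD)
  have hFc : Continuous F := by
    apply ContinuousOn.continuous_of_tsupport_subset _ hD hsD
    exact (χ.continuous.continuousOn).smul hf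
  have hFs : HasCompactSupport F := χ.hasCompactSupport.smul_right
  have hFf : ∀ z ∈ ball z0 (R / 4), F z = f z := by
    intro z hz
    simp only [F]
    rw [χ.one_of_mem_closedBall (ball_subset_closedBall hz), one_smul]
  have hlim : ∀ z ∈ ball z0 (R / 4), Tendsto (fun s : ℝ => wm F z s / (s : ℂ)) (𝓝[>] 0) (𝓝 0) := by
    intro z hz
    have hzD : z ∈ D := hRD (ball_subset_ball (by linarith) hz)
    have h1 := (h z hzD).const_mul (-I)
    rw [mul_zero] at h1
    refine h1.congr' ?_
    obtain ⟨ρ, hρ, hball⟩ := Metric.isOpen_iff.mp isOpen_ball z hz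
    filter_upwards [Ioo_mem_nhdsGT hρ] with s hs
    have h2 : (∮ ζ in C(z, s), f ζ) = ∮ ζ in C(z, s), F ζ := by
      apply circleIntegral.integral_congr hs.1.le
      intro w hw
      rw [hFf w (hball (closedBall_subset_ball hs.2 (sphere_subset_closedBall hw)))]
    rw [h2, circleIntegral_eq_wm]
    have hs0 : (s : ℂ) ≠ 0 := by exact_mod_cast hs.1.ne'
    field_simp
    linear_combination (-wm F z s) * Complex.I_sq
  have hwm := wm_eq_zero F hFc hFs z0 (R / 4) hlim
  have hdiff := differentiableOn_of_wm F hFc hFs z0 (R / 4) (by positivity)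
    (fun z s hs hzs => hwm z s hs hzs)
  have hFz0 : DifferentiableAt ℂ F z0 :=
    hdiff.differentiableAt (ball_mem_nhds z0 (by positivity))
  apply hFz0.congr_of_eventuallyEq
  filter_upwards [ball_mem_nhds z0 (show 0 < R / 4 by positivity)] with z hz
  exact (hFf z hz).symm


end Pool.Agent.Results.MP_be4214_an.ArealCircleDerivative
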